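import Mathlib

/-! Counting functions from counts at the scales `2 ^ k` (helper481). -/

set_option autoImplicit false

namespace Pool.Agent.N481.MV

open Finset

/-- powers of the logarithm are absorbed -/
lemma log_pow_le {ε : ℝ} (hε : 0 < ε) (p : ℕ) : ∃ A : ℝ, 0 ≤ A ∧ ∀ x : ℝ, 1 ≤ x → Real.log x ^ p ≤ A * x ^ ε := by
  rcases Nat.eq_zero_or_pos p with hp | hp
  · exact ⟨1, zero_le_one, fun x hx => by rw [hp, pow_zero, one_mul]; exact Real.one_le_rpow hx hε.le⟩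
  have hp' : (0 : ℝ) < p := by exact_mod_cast hp
  refine ⟨(1 / (ε / p)) ^ p, by positivity, fun x hx => ?_⟩
  have h1 : Real.log x ≤ x ^ (ε / p) / (ε / p) := Real.log_le_rpow_div (by linarith) (by positivity)
  calc Real.log x ^ p ≤ (x ^ (ε / p) / (ε / p)) ^ p := pow_le_pow_left₀ (Real.log_nonneg hx) h1 p
    _ = (1 / (ε / p)) ^ p * (x ^ (ε / p)) ^ p := by rw [← mul_pow]; congr 1; ring
    _ = (1 / (ε / p)) ^ p * x ^ ε := by
      congr 1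
      rw [← Real.rpow_natCast, ← Real.rpow_mul (by linarith)]
      congr 1
      field_simp

/-- the scale of a real number `≥ 1` -/
lemma exists_scale {x : ℝ} (hx : 1 ≤ x) : ∃ k : ℕ, (2 : ℝ) ^ k ≤ x ∧ x < 2 ^ (k + 1) := by
  have h := exists_nat_pow_near hx (show (1 : ℝ) < 2 by norm_num)
  exact h

/-- **Sums over the scales.** -/
lemma dyadic {T : Type*} (h : T → ℝ) {P : T → Prop} {s : ℝ} (hs : 0 < s) {C : ℝ}
    (h0 : {t : T | P t ∧ h t < 1}.Finite)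
    (h1 : ∀ k : ℕ, {t : T | P t ∧ (2 : ℝ) ^ k ≤ h t ∧ h t < 2 ^ (k + 1)}.Finite ∧
      ({t : T | P t ∧ (2 : ℝ) ^ k ≤ h t ∧ h t < 2 ^ (k + 1)}.ncard : ℝ) ≤ C * ((2 : ℝ) ^ k) ^ s) :
    ∃ K : ℝ, ∀ X : ℝ, 1 ≤ X → {t : T | P t ∧ h t ≤ X}.Finite ∧ ({t : T | P t ∧ h t ≤ X}.ncard : ℝ) ≤ K * X ^ s := by
  classical
  have h2s : 1 < (2 : ℝ) ^ s := Real.one_lt_rpow (by norm_num) hs
  have hC0 : 0 ≤ C := by
    have := (h1 0).2
    have e : ((2 : ℝ) ^ 0) ^ s = 1 := by rw [pow_zero, Real.one_rpow]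
    rw [e, mul_one] at this
    exact le_trans (Nat.cast_nonneg _) this
  refine ⟨C * ((2 : ℝ) ^ s / ((2 : ℝ) ^ s - 1)) + h0.toFinset.card, fun X hX => ?_⟩
  obtain ⟨K, hK1, hK2⟩ := exists_scale hX
  have hsub : {t : T | P t ∧ h t ≤ X} ⊆
      (((range (K + 1)).biUnion (fun k => (h1 k).1.toFinset) ∪ h0.toFinset : Finset T) : Set T) := by
    rintro t ⟨g1, g2⟩
    rw [mem_coe, mem_union, mem_biUnion]
    rcases lt_or_ge (h t) 1 with g | g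
    · right
      rw [Set.Finite.mem_toFinset]
      exact ⟨g1, g⟩
    · left
      obtain ⟨k, hk1, hk2⟩ := exists_scale g
      refine ⟨k, ?_, ?_⟩
      · rw [mem_range]
        have : (2 : ℝ) ^ k < 2 ^ (K + 1) := lt_of_le_of_lt (hk1.trans g2) hK2
        exact (pow_lt_pow_iff_right₀ (by norm_num)).1 this
      · rw [Set.Finite.mem_toFinset]
        exact ⟨g1, hk1, hk2⟩
  refine ⟨(Finset.finite_toSet _).subset hsub, ?_⟩
  have g1 := Set.ncard_le_ncard hsub (Finset.finite_toSet _)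
  rw [Set.ncard_coe_finset] at g1
  have g2 : (({t : T | P t ∧ h t ≤ X}.ncard : ℕ) : ℝ) ≤
      ((∑ k ∈ range (K + 1), ((h1 k).1.toFinset).card : ℕ) : ℝ) + h0.toFinset.card := by
    have := g1.trans ((card_union_le _ _).trans (Nat.add_le_add_right card_biUnion_le _))
    exact_mod_cast this
  have g3 : ((∑ k ∈ range (K + 1), ((h1 k).1.toFinset).card : ℕ) : ℝ) ≤ ∑ k ∈ range (K + 1), C * ((2 : ℝ) ^ k) ^ s := by
    push_cast
    refine sum_le_sum fun k _ => ?_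
    rw [← Set.ncard_eq_toFinset_card _ (h1 k).1]
    exact (h1 k).2
  have h3 : ∑ k ∈ range (K + 1), C * ((2 : ℝ) ^ k) ^ s = C * ∑ k ∈ range (K + 1), ((2 : ℝ) ^ s) ^ k := by
    rw [mul_sum]
    refine sum_congr rfl fun k _ => ?_
    rw [← Real.rpow_natCast, ← Real.rpow_mul (by norm_num), ← Real.rpow_natCast, ← Real.rpow_mul (by norm_num),
      mul_comm (k : ℝ) s]
  have h4 : ((2 : ℝ) ^ s) ^ (K + 1) = (2 : ℝ) ^ s * ((2 : ℝ) ^ K) ^ s := by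
    rw [pow_succ, mul_comm, ← Real.rpow_natCast ((2 : ℝ) ^ s), ← Real.rpow_mul (by norm_num), ← Real.rpow_natCast 2 K,
      ← Real.rpow_mul (by norm_num), mul_comm s (K : ℝ)]
  have h5 : ((2 : ℝ) ^ K) ^ s ≤ X ^ s := Real.rpow_le_rpow (by positivity) hK1 hs.le
  have h6 := mul_le_mul_of_nonneg_left h5 (show (0 : ℝ) ≤ (2 : ℝ) ^ s by positivity)
  have h7 : C * (((2 : ℝ) ^ s) ^ (K + 1) - 1) / ((2 : ℝ) ^ s - 1) ≤ C * ((2 : ℝ) ^ s / ((2 : ℝ) ^ s - 1)) * X ^ s := by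
    have h8 : C * ((2 : ℝ) ^ s / ((2 : ℝ) ^ s - 1)) * X ^ s = C * ((2 : ℝ) ^ s * X ^ s) / ((2 : ℝ) ^ s - 1) := by ring
    rw [h8]
    apply div_le_div_of_nonneg_right _ (by linarith)
    apply mul_le_mul_of_nonneg_left _ hC0
    rw [h4]
    linarith
  have h9 : (1 : ℝ) ≤ X ^ s := Real.one_le_rpow hX hs.le
  have h10 : (h0.toFinset.card : ℝ) ≤ h0.toFinset.card * X ^ s := le_mul_of_one_le_right (Nat.cast_nonneg _) h9
  rw [h3, geom_sum_eq h2s.ne', ← mul_div_assoc] at g3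
  calc (({t : T | P t ∧ h t ≤ X}.ncard : ℕ) : ℝ)
      ≤ C * (((2 : ℝ) ^ s) ^ (K + 1) - 1) / ((2 : ℝ) ^ s - 1) + h0.toFinset.card := by linarith
    _ ≤ C * ((2 : ℝ) ^ s / ((2 : ℝ) ^ s - 1)) * X ^ s + h0.toFinset.card * X ^ s := add_le_add h7 h10
    _ = _ := by ring

/-- **Counts at the scales `2 ^ (k + 1)`.** If the members `t` of `P` with height between `2 ^ k` and `2 ^ (k + 1)` satisfy
`Q k`, and `Q k` has at most `C (log x) ^ p x ^ s` members of height up to `x = 2 ^ (k + 1)`, then `P` has at most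
`K x ^ (s + ε)` members of height up to `x`. -/
theorem scale {T : Type*} (h : T → ℝ) {P : T → Prop} {Q : ℕ → T → Prop} {s C : ℝ} {p k₀ : ℕ} (hs : 0 ≤ s)
    (h0 : {t : T | P t ∧ h t < 2 ^ k₀}.Finite)
    (hPQ : ∀ (k : ℕ) (t : T), k₀ ≤ k → 2 ^ k ≤ h t → h t < 2 ^ (k + 1) → P t → Q k t)
    (hQ : ∀ k : ℕ, k₀ ≤ k → {t : T | h t ≤ 2 ^ (k + 1) ∧ Q k t}.Finite ∧
      ({t : T | h t ≤ 2 ^ (k + 1) ∧ Q k t}.ncard : ℝ) ≤ C * Real.log (2 ^ (k + 1)) ^ p * ((2 : ℝ) ^ (k + 1)) ^ s) :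
    ∀ ε : ℝ, 0 < ε → ∃ K : ℝ, ∀ X : ℝ, 1 ≤ X →
      {t : T | P t ∧ h t ≤ X}.Finite ∧ ({t : T | P t ∧ h t ≤ X}.ncard : ℝ) ≤ K * X ^ (s + ε) := by
  intro ε hε
  obtain ⟨A, hA0, hA⟩ := log_pow_le hε p
  have hse : 0 < s + ε := by linarith
  refine dyadic h hse (C := |C| * A * 2 ^ (s + ε) + h0.toFinset.card) (h0.subset ?_) fun k => ?_
  · rintro t ⟨g1, g2⟩
    exact ⟨g1, lt_of_lt_of_le g2 (one_le_pow₀ (by norm_num))⟩
  have h2k : (1 : ℝ) ≤ (2 : ℝ) ^ k := one_le_pow₀ (by norm_num)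
  have h2k' : (1 : ℝ) ≤ (2 : ℝ) ^ (k + 1) := one_le_pow₀ (by norm_num)
  have hks : 1 ≤ ((2 : ℝ) ^ k) ^ (s + ε) := Real.one_le_rpow h2k hse.le
  rcases Nat.lt_or_ge k k₀ with hk | hk
  · have hsub : {t : T | P t ∧ (2 : ℝ) ^ k ≤ h t ∧ h t < 2 ^ (k + 1)} ⊆ (h0.toFinset : Set T) := by
      rintro t ⟨h1, h2, h3⟩
      rw [mem_coe, Set.Finite.mem_toFinset]
      refine ⟨h1, lt_of_lt_of_le h3 ?_⟩
      exact pow_le_pow_right₀ (by norm_num) (by omega)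
    refine ⟨(Finset.finite_toSet _).subset hsub, ?_⟩
    have h1 := Set.ncard_le_ncard hsub (Finset.finite_toSet _)
    rw [Set.ncard_coe_finset] at h1
    have h3 : (({t : T | P t ∧ (2 : ℝ) ^ k ≤ h t ∧ h t < 2 ^ (k + 1)}.ncard : ℕ) : ℝ) ≤ (h0.toFinset.card : ℝ) := by
      exact_mod_cast h1
    refine h3.trans ?_
    have h4 : (0 : ℝ) ≤ |C| * A * 2 ^ (s + ε) := by positivity
    calc (h0.toFinset.card : ℝ) ≤ (|C| * A * 2 ^ (s + ε) + h0.toFinset.card) * 1 := by linarith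
      _ ≤ _ := mul_le_mul_of_nonneg_left hks (by positivity)
  · obtain ⟨hfin, hcard⟩ := hQ k hk
    have hsub : {t : T | P t ∧ (2 : ℝ) ^ k ≤ h t ∧ h t < 2 ^ (k + 1)} ⊆ {t : T | h t ≤ 2 ^ (k + 1) ∧ Q k t} := by
      rintro t ⟨h1, h2, h3⟩
      exact ⟨h3.le, hPQ k t hk h2 h3 h1⟩
    refine ⟨hfin.subset hsub, ?_⟩
    have h1 : (({t : T | P t ∧ (2 : ℝ) ^ k ≤ h t ∧ h t < 2 ^ (k + 1)}.ncard : ℕ) : ℝ) ≤
        ({t : T | h t ≤ 2 ^ (k + 1) ∧ Q k t}.ncard : ℝ) := by exact_mod_cast Set.ncard_le_ncard hsub hfin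
    refine h1.trans (hcard.trans ?_)
    have hl : 0 ≤ Real.log (2 ^ (k + 1)) := Real.log_nonneg h2k'
    have e1 : ((2 : ℝ) ^ (k + 1)) ^ (s + ε) = 2 ^ (s + ε) * ((2 : ℝ) ^ k) ^ (s + ε) := by
      rw [pow_succ, Real.mul_rpow (by positivity) (by norm_num)]
      ring
    calc C * Real.log (2 ^ (k + 1)) ^ p * ((2 : ℝ) ^ (k + 1)) ^ s
        ≤ |C| * Real.log (2 ^ (k + 1)) ^ p * ((2 : ℝ) ^ (k + 1)) ^ s := by
          apply mul_le_mul_of_nonneg_right _ (by positivity)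
          exact mul_le_mul_of_nonneg_right (le_abs_self C) (by positivity)
      _ ≤ |C| * (A * ((2 : ℝ) ^ (k + 1)) ^ ε) * ((2 : ℝ) ^ (k + 1)) ^ s := by
          apply mul_le_mul_of_nonneg_right _ (by positivity)
          exact mul_le_mul_of_nonneg_left (hA _ h2k') (abs_nonneg C)
      _ = |C| * A * ((2 : ℝ) ^ (k + 1)) ^ (s + ε) := by
          rw [Real.rpow_add (by positivity)]
          ring
      _ = |C| * A * 2 ^ (s + ε) * ((2 : ℝ) ^ k) ^ (s + ε) := by rw [e1]; ring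
      _ ≤ (|C| * A * 2 ^ (s + ε) + h0.toFinset.card) * ((2 : ℝ) ^ k) ^ (s + ε) := by
          apply mul_le_mul_of_nonneg_right _ (by positivity)
          have : (0 : ℝ) ≤ h0.toFinset.card := Nat.cast_nonneg _
          linarith

end Pool.Agent.N481.MV
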