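import Mathlib
import Pool.Agent.N481.MV.Dy

/-! From a law with two levels to powers of the starting point (helper481). -/

set_option autoImplicit false

namespace Pool.Agent.N481.MV

open Finset

/-- Let `Bad y V` be antitone in `y`, `V` with at most `C (log x)^p (x^2 / V + x / y^c)` members up to `x`. Then
`Bad (n^δ) (n^(1+v)) n` has at most `K x^(s + ε)` solutions `n ≤ x`, `s = 1 - min v (c δ)`. -/
theorem two_scale {Bad : ℝ → ℝ → ℕ → Prop} {c C v δ : ℝ} {p : ℕ} (hv : 0 < v) (hv1 : v ≤ 1) (hδ : 0 < δ)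
    (hC : 0 ≤ C)
    (hmono : ∀ (y y' V V' : ℝ) (n : ℕ), y ≤ y' → V ≤ V' → Bad y' V' n → Bad y V n)
    (law : ∀ x y V : ℝ, 2 ≤ x → 1 ≤ y → x ≤ V →
      ({n : ℕ | 1 ≤ n ∧ (n : ℝ) ≤ x ∧ Bad y V n}.ncard : ℝ) ≤ C * Real.log x ^ p * (x ^ 2 / V + x / y ^ c)) :
    ∀ ε : ℝ, 0 < ε → ∃ K : ℝ, ∀ X : ℝ, 1 ≤ X →
      {n : ℕ | (1 ≤ n ∧ Bad ((n : ℝ) ^ δ) ((n : ℝ) ^ (1 + v)) n) ∧ (n : ℝ) ≤ X}.Finite ∧
      ({n : ℕ | (1 ≤ n ∧ Bad ((n : ℝ) ^ δ) ((n : ℝ) ^ (1 + v)) n) ∧ (n : ℝ) ≤ X}.ncard : ℝ) ≤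
        K * X ^ (1 - min v (c * δ) + ε) := by
  have hs : 0 ≤ 1 - min v (c * δ) := by linarith [min_le_left v (c * δ)]
  refine scale (fun n : ℕ => (n : ℝ)) (P := fun n : ℕ => 1 ≤ n ∧ Bad ((n : ℝ) ^ δ) ((n : ℝ) ^ (1 + v)) n)
    (Q := fun k n => 1 ≤ n ∧ Bad (((2 : ℝ) ^ k) ^ δ) (((2 : ℝ) ^ k) ^ (1 + v)) n) (C := C * 6) (p := p)
    (k₀ := ⌈1 / v⌉₊) hs ?_ ?_ ?_
  · apply (Set.finite_Iio (2 ^ ⌈1 / v⌉₊)).subset
    rintro n ⟨-, h2⟩
    exact_mod_cast h2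
  · rintro k n - h1 - ⟨h2, h3⟩
    refine ⟨h2, hmono _ _ _ _ n ?_ ?_ h3⟩
    · exact Real.rpow_le_rpow (by positivity) h1 hδ.le
    · exact Real.rpow_le_rpow (by positivity) h1 (by linarith)
  · intro k hk
    have hz1 : (1 : ℝ) ≤ (2 : ℝ) ^ k := one_le_pow₀ (by norm_num)
    have hz0 : (0 : ℝ) < (2 : ℝ) ^ k := by positivity
    have hset : {t : ℕ | (t : ℝ) ≤ 2 ^ (k + 1) ∧ 1 ≤ t ∧ Bad (((2 : ℝ) ^ k) ^ δ) (((2 : ℝ) ^ k) ^ (1 + v)) t} =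
        {n : ℕ | 1 ≤ n ∧ (n : ℝ) ≤ 2 ^ (k + 1) ∧ Bad (((2 : ℝ) ^ k) ^ δ) (((2 : ℝ) ^ k) ^ (1 + v)) n} := by
      ext n
      simp only [Set.mem_ofPred_eq]
      tauto
    refine ⟨?_, ?_⟩
    · apply (Set.finite_Iic (2 ^ (k + 1))).subset
      rintro n ⟨h2, -⟩
      exact_mod_cast h2
    rw [hset]
    have hkv : (1 : ℝ) ≤ k * v := by
      have h1 : (1 / v : ℝ) ≤ k := (Nat.le_ceil _).trans (by exact_mod_cast hk)
      rwa [div_le_iff₀ hv] at h1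
    have hV : (2 : ℝ) ^ (k + 1) ≤ ((2 : ℝ) ^ k) ^ (1 + v) := by
      rw [← Real.rpow_natCast 2 k, ← Real.rpow_mul (by norm_num), ← Real.rpow_natCast 2 (k + 1)]
      apply Real.rpow_le_rpow_of_exponent_le (by norm_num)
      push_cast
      linarith
    have hx2 : (2 : ℝ) ≤ 2 ^ (k + 1) := by
      rw [pow_succ]
      linarith
    have h1 := law (2 ^ (k + 1)) (((2 : ℝ) ^ k) ^ δ) (((2 : ℝ) ^ k) ^ (1 + v)) hx2
      (Real.one_le_rpow hz1 hδ.le) hV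
    refine h1.trans ?_
    have hL : 0 ≤ Real.log ((2 : ℝ) ^ (k + 1)) := Real.log_nonneg (by linarith)
    obtain ⟨z, hz⟩ : ∃ z : ℝ, z = (2 : ℝ) ^ k := ⟨_, rfl⟩
    have e2 : (2 : ℝ) ^ (k + 1) = 2 * z := by rw [hz, pow_succ]; ring
    rw [← hz] at hz1 hz0
    have a1 : (2 * z) ^ 2 / z ^ (1 + v) ≤ 4 * z ^ (1 - min v (c * δ)) := by
      have h2 : (2 * z) ^ 2 / z ^ (1 + v) = 4 * z ^ (1 - v) := by
        rw [div_eq_iff (Real.rpow_pos_of_pos hz0 _).ne', mul_assoc, ← Real.rpow_add hz0]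
        rw [show 1 - v + (1 + v) = (2 : ℝ) by ring]
        have : z ^ (2 : ℝ) = z ^ 2 := by exact_mod_cast Real.rpow_natCast z 2
        rw [this]
        ring
      rw [h2]
      apply mul_le_mul_of_nonneg_left _ (by norm_num)
      exact Real.rpow_le_rpow_of_exponent_le hz1 (by linarith [min_le_left v (c * δ)])
    have a2 : (2 * z) / (z ^ δ) ^ c ≤ 2 * z ^ (1 - min v (c * δ)) := by
      have h2 : (2 * z) / (z ^ δ) ^ c = 2 * z ^ (1 - c * δ) := by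
        rw [← Real.rpow_mul hz0.le, div_eq_iff (Real.rpow_pos_of_pos hz0 _).ne', mul_assoc, ← Real.rpow_add hz0]
        rw [show 1 - c * δ + δ * c = (1 : ℝ) by ring, Real.rpow_one]
      rw [h2]
      apply mul_le_mul_of_nonneg_left _ (by norm_num)
      exact Real.rpow_le_rpow_of_exponent_le hz1 (by linarith [min_le_right v (c * δ)])
    have a3 : z ^ (1 - min v (c * δ)) ≤ (2 * z) ^ (1 - min v (c * δ)) :=
      Real.rpow_le_rpow hz0.le (by linarith) hs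
    rw [e2] at hL ⊢
    rw [← hz]
    calc C * Real.log (2 * z) ^ p * ((2 * z) ^ 2 / z ^ (1 + v) + 2 * z / (z ^ δ) ^ c)
        ≤ C * Real.log (2 * z) ^ p * (6 * (2 * z) ^ (1 - min v (c * δ))) := by
          apply mul_le_mul_of_nonneg_left _ (by positivity)
          linarith
      _ = _ := by ring

end Pool.Agent.N481.MV
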