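import Mathlib
import Pool.Agent.N733.TG.K

set_option autoImplicit false

/-! The tool of helper733 (`Pool.Agent.N733.TG.K`), uniformly in the set (helper481). -/

namespace Pool.Agent.N481.MV

open Finset Classical
open Pool.Agent.N733.TG

/-- the number of the `v ≤ X` such that `G v` is close to the height of an element of `S`, uniformly in `S` -/
lemma nearG_unif {T : Type*} {G : ℕ → ℝ} {d : ℝ} (hG : Expanding G d) {s κ : ℝ}
    (hκ : 0 ≤ κ) (hκ1 : κ ≤ 1) (C : ℝ) :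
    ∃ K : ℝ, ∀ (S : Set T) (h : T → ℝ), (∀ X : ℝ, 1 ≤ X →
      {t | t ∈ S ∧ h t ≤ X}.Finite ∧ ({t | t ∈ S ∧ h t ≤ X}.ncard : ℝ) ≤ C * X ^ s) →
      ∀ X : ℕ, 1 ≤ X → (((Icc 1 X).filter (fun v => v ∈ NearG S h G κ)).card : ℝ) ≤
      K * (X : ℝ) ^ (d * s + κ) := by
  obtain ⟨hd, ⟨a, ha, hstep⟩, ⟨C₁, hC₁⟩⟩ := hG
  obtain ⟨C₂, hC₂⟩ : ∃ C₂ : ℝ, C₂ = |C₁| + 1 := ⟨_, rfl⟩
  have hC₂1 : 1 ≤ C₂ := by rw [hC₂]; linarith [abs_nonneg C₁]
  refine ⟨|C| * C₂ ^ s * (2 / a + 1), fun S h hC X hX => ?_⟩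
  have hX1 : (1 : ℝ) ≤ X := by exact_mod_cast hX
  obtain ⟨Z, hZ⟩ : ∃ Z : ℝ, Z = C₂ * (X : ℝ) ^ d := ⟨_, rfl⟩
  have hXd : (1 : ℝ) ≤ (X : ℝ) ^ d := Real.one_le_rpow hX1 (by linarith)
  have hZ1 : 1 ≤ Z := by
    rw [hZ]
    exact one_le_mul_of_one_le_of_one_le hC₂1 hXd
  obtain ⟨hfin, hcard⟩ := hC Z hZ1
  have hXκ : (1 : ℝ) ≤ (X : ℝ) ^ κ := Real.one_le_rpow hX1 hκ
  obtain ⟨W, hW⟩ : ∃ W : T → Finset ℕ, W = fun t : T => (Icc 1 X).filter (fun v : ℕ => |h t - G v| ≤ (X : ℝ) ^ κ) :=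
    ⟨_, rfl⟩
  have hsub : (Icc 1 X).filter (fun v => v ∈ NearG S h G κ) ⊆ hfin.toFinset.biUnion W := by
    intro v hv
    rw [mem_filter, mem_Icc] at hv
    obtain ⟨⟨hv1, hvX⟩, t, htS, ht⟩ := hv
    have hv1' : (1 : ℝ) ≤ v := by exact_mod_cast hv1
    have hvX' : (v : ℝ) ≤ X := by exact_mod_cast hvX
    have e1 : (v : ℝ) ^ κ ≤ (X : ℝ) ^ κ := Real.rpow_le_rpow (by linarith) hvX' hκ
    rw [mem_biUnion]
    refine ⟨t, ?_, ?_⟩
    · rw [Set.Finite.mem_toFinset]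
      refine ⟨htS, ?_⟩
      have e3 := (abs_le.1 ht).2
      have e4 : G v ≤ |C₁| * (X : ℝ) ^ d := by
        calc G v ≤ C₁ * (v : ℝ) ^ d := hC₁ v hv1
          _ ≤ |C₁| * (v : ℝ) ^ d := mul_le_mul_of_nonneg_right (le_abs_self _) (by positivity)
          _ ≤ |C₁| * (X : ℝ) ^ d := mul_le_mul_of_nonneg_left
              (Real.rpow_le_rpow (by linarith) hvX' (by linarith)) (abs_nonneg _)
      have e5 : (X : ℝ) ^ κ ≤ (X : ℝ) ^ d := Real.rpow_le_rpow_of_exponent_le hX1 (by linarith)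
      rw [hZ, hC₂]
      linarith
    · rw [hW, mem_filter, mem_Icc]
      exact ⟨⟨hv1, hvX⟩, ht.trans e1⟩
  have hTc : ∀ t : T, ((W t).card : ℝ) ≤ (2 / a + 1) * (X : ℝ) ^ κ := by
    intro t
    have h0 : (0 : ℝ) ≤ 2 * (X : ℝ) ^ κ / a := by positivity
    rcases (W t).eq_empty_or_nonempty with he | he
    · rw [he]
      simp only [card_empty, Nat.cast_zero]
      positivity
    · obtain ⟨v0, hv0⟩ : ∃ v0, v0 = (W t).min' he := ⟨_, rfl⟩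
      have hv0m : v0 ∈ W t := by rw [hv0]; exact min'_mem _ _
      have hs' : W t ⊆ Icc v0 (v0 + ⌊2 * (X : ℝ) ^ κ / a⌋₊) := by
        intro v hv
        have h1 : v0 ≤ v := by rw [hv0]; exact min'_le _ _ hv
        rw [mem_Icc]
        refine ⟨h1, ?_⟩
        rw [hW, mem_filter, mem_Icc] at hv hv0m
        have h2 := abs_le.1 hv.2
        have h3 := abs_le.1 hv0m.2
        have h4 : ((v - v0 : ℕ) : ℝ) ≤ 2 * (X : ℝ) ^ κ / a := by
          rw [le_div_iff₀ ha]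
          have := step_sum hstep hv0m.1.1 h1
          linarith [h2.1, h3.2]
        have := Nat.le_floor h4
        omega
      have h5 := card_le_card hs'
      rw [Nat.card_Icc] at h5
      have h6 : (((W t).card : ℕ) : ℝ) ≤ (⌊2 * (X : ℝ) ^ κ / a⌋₊ : ℝ) + 1 := by
        have : (W t).card ≤ ⌊2 * (X : ℝ) ^ κ / a⌋₊ + 1 := by omega
        exact_mod_cast this
      have h7 := Nat.floor_le h0
      calc ((W t).card : ℝ) ≤ (⌊2 * (X : ℝ) ^ κ / a⌋₊ : ℝ) + 1 := h6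
        _ ≤ 2 * (X : ℝ) ^ κ / a + (X : ℝ) ^ κ := by linarith
        _ = (2 / a + 1) * (X : ℝ) ^ κ := by ring
  have h1 : (((Icc 1 X).filter (fun v => v ∈ NearG S h G κ)).card : ℝ) ≤ ∑ t ∈ hfin.toFinset, ((W t).card : ℝ) := by
    have := (card_le_card hsub).trans card_biUnion_le
    exact_mod_cast this
  refine h1.trans ((sum_le_sum (fun t _ => hTc t)).trans ?_)
  rw [sum_const, nsmul_eq_mul, ← Set.ncard_eq_toFinset_card _ hfin]
  have h3 : Z ^ s = C₂ ^ s * (X : ℝ) ^ (d * s) := by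
    rw [hZ, Real.mul_rpow (by positivity) (by positivity), ← Real.rpow_mul (by positivity)]
  calc ({t | t ∈ S ∧ h t ≤ Z}.ncard : ℝ) * ((2 / a + 1) * (X : ℝ) ^ κ)
      ≤ (|C| * (C₂ ^ s * (X : ℝ) ^ (d * s))) * ((2 / a + 1) * (X : ℝ) ^ κ) := by
        apply mul_le_mul_of_nonneg_right _ (by positivity)
        rw [← h3]
        exact hcard.trans (mul_le_mul_of_nonneg_right (le_abs_self _) (by positivity))
    _ = (|C| * C₂ ^ s * (2 / a + 1)) * ((X : ℝ) ^ (d * s) * (X : ℝ) ^ κ) := by ring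
    _ = _ := by rw [← Real.rpow_add (by linarith)]

/-- **Uniform tool.** If `S` has at most `C X ^ s` elements of height at most `X`, and `G` is expanding of growth `d`, then
for all `m ≤ N` but `N / (log N)^A` no element of `S` has a height within `f(m)^κ` of `G (f m)`, for all `N ≥ N₀`; here
`d s + κ < 1`, and `N₀` depends only on `C`, `s`, `κ`, `A`, `f`, `G`, and not on the set `S` or the height. -/
theorem keep_unif {T : Type*} {f : ℕ → ℕ} (hf : LM f) {G : ℕ → ℝ} {d : ℝ}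
    (hG : Expanding G d) {s κ : ℝ} (hs : 0 ≤ s) (hκ : 0 ≤ κ) (h1 : d * s + κ < 1) (C : ℝ) (A : ℕ) :
    ∃ N₀ : ℕ, ∀ (S : Set T) (h : T → ℝ), (∀ X : ℝ, 1 ≤ X →
      {t | t ∈ S ∧ h t ≤ X}.Finite ∧ ({t | t ∈ S ∧ h t ≤ X}.ncard : ℝ) ≤ C * X ^ s) → ∀ N : ℕ, N₀ ≤ N →
      ({m : ℕ | 1 ≤ m ∧ m ≤ N ∧ ∃ t ∈ S, |h t - G (f m)| ≤ (f m : ℝ) ^ κ}.ncard : ℝ) ≤ N / Real.log N ^ A := by
  have hd := hG.one_le
  have hds : 0 ≤ d * s := by positivity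
  obtain ⟨K, hK⟩ := nearG_unif (T := T) hG hκ (by linarith) C
  obtain ⟨N₀, hN₀⟩ := avoid hf (θ := d * s + κ) (by positivity) h1 K A
  refine ⟨N₀, fun S h hS N hN => ?_⟩
  have h3 := hN₀ (NearG S h G κ) (hK S h hS) N hN
  have hsub : {m : ℕ | 1 ≤ m ∧ m ≤ N ∧ ∃ t ∈ S, |h t - G (f m)| ≤ (f m : ℝ) ^ κ} ⊆
      (((Icc 1 N).filter (fun m => f m ∈ NearG S h G κ) : Finset ℕ) : Set ℕ) := by
    rintro m ⟨g1, g2, g3⟩
    rw [mem_coe, mem_filter, mem_Icc]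
    exact ⟨⟨g1, g2⟩, g3⟩
  have h4 := Set.ncard_le_ncard hsub (Finset.finite_toSet _)
  rw [Set.ncard_coe_finset] at h4
  refine le_trans ?_ h3
  exact_mod_cast h4

end Pool.Agent.N481.MV
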